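import Mathlib

/-!
# Universal C*-algebras exist
-/

set_option autoImplicit false

namespace Pool.Agent.Y208.IG

open scoped ENNReal CStarAlgebra

section LP

variable {I : Type} {B : I → Type} [∀ i, CStarAlgebra (B i)] [∀ i, Nontrivial (B i)]

noncomputable instance lpCStar : CStarAlgebra (lp B ∞) where

/-- the evaluation -/
noncomputable def ev (i : I) : lp B ∞ →⋆ₐ[ℂ] B i where
  toFun f := f i
  map_one' := rfl
  map_mul' _ _ := rfl
  map_zero' := rfl
  map_add' _ _ := rfl
  commutes' _ := rfl
  map_star' _ := rfl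

theorem lp_ext {f g : lp B ∞} (h : ∀ i, ev i f = ev i g) : f = g := lp.ext (funext h)

end LP

/-- A class of families of elements of C*-algebras which has a universal member. -/
structure Admissible (X : Type) (R : ∀ (B : Type) [CStarAlgebra B], (X → B) → Prop) : Prop where
  norm_le : ∀ (B : Type) [CStarAlgebra B] (q : X → B), R B q → ∀ x, ‖q x‖ ≤ 1
  sub : ∀ (B C : Type) [CStarAlgebra B] [CStarAlgebra C] (φ : B →⋆ₐ[ℂ] C),
    Function.Injective φ → ∀ q : X → B, R C (fun x => φ (q x)) → R B q
  prod : ∀ (I : Type) (B : I → Type) [∀ i, CStarAlgebra (B i)] [∀ i, Nontrivial (B i)]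
    (q : X → lp B ∞), (∀ i, R (B i) (fun x => ev i (q x))) → R (lp B ∞) q

section Free

variable {X : Type}

/-- the evaluation of a noncommutative *-polynomial -/
noncomputable def evalPoly {B : Type} [CStarAlgebra B] (q : X → B) :
    FreeAlgebra ℂ (X ⊕ X) →ₐ[ℂ] B :=
  FreeAlgebra.lift ℂ (Sum.elim q (fun x => star (q x)))

theorem evalPoly_map {B C : Type} [CStarAlgebra B] [CStarAlgebra C] (φ : B →⋆ₐ[ℂ] C) (q : X → B)
    (f : FreeAlgebra ℂ (X ⊕ X)) : evalPoly (fun x => φ (q x)) f = φ (evalPoly q f) := by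
  have h : evalPoly (fun x => φ (q x)) = φ.toAlgHom.comp (evalPoly q) := by
    apply FreeAlgebra.hom_ext
    funext x
    rcases x with x | x
    · simp [evalPoly]
    · simp [evalPoly, map_star]
  rw [h]
  rfl

theorem adjoin_eq_range {B : Type} [CStarAlgebra B] (q : X → B) (b : B) :
    b ∈ StarAlgebra.adjoin ℂ (Set.range q) ↔ ∃ f, evalPoly q f = b := by
  constructor
  · intro hb
    have h1 : b ∈ (evalPoly q).range := by
      have h2 : b ∈ Algebra.adjoin ℂ (Set.range q ∪ star (Set.range q)) := hb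
      revert h2
      apply Algebra.adjoin_le
      rintro y (⟨x, rfl⟩ | hy)
      · exact ⟨FreeAlgebra.ι ℂ (Sum.inl x), by simp [evalPoly]⟩
      · obtain ⟨x, hx⟩ := hy
        refine ⟨FreeAlgebra.ι ℂ (Sum.inr x), ?_⟩
        simp only [evalPoly, AlgHom.toRingHom_eq_coe, RingHom.coe_coe, FreeAlgebra.lift_ι_apply,
          Sum.elim_inr]
        rw [hx, star_star]
    exact h1
  · rintro ⟨f, rfl⟩
    induction f using FreeAlgebra.induction with
    | grade0 r => 
      rw [AlgHom.commutes]
      exact algebraMap_mem _ r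
    | grade1 x =>
      rcases x with x | x
      · simp only [evalPoly, FreeAlgebra.lift_ι_apply, Sum.elim_inl]
        exact StarAlgebra.subset_adjoin ℂ _ ⟨x, rfl⟩
      · simp only [evalPoly, FreeAlgebra.lift_ι_apply, Sum.elim_inr]
        exact star_mem (StarAlgebra.subset_adjoin ℂ _ ⟨x, rfl⟩)
    | mul a b ha hb => rw [map_mul]; exact mul_mem ha hb
    | add a b ha hb => rw [map_add]; exact add_mem ha hb

end Free

/-- the closed star subalgebra generated by a family -/
noncomputable abbrev gen {X B : Type} [CStarAlgebra B] (q : X → B) : StarSubalgebra ℂ B :=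
  (StarAlgebra.adjoin ℂ (Set.range q)).topologicalClosure

instance genClosed {X B : Type} [CStarAlgebra B] (q : X → B) : IsClosed ((gen q : StarSubalgebra ℂ B) : Set B) :=
  StarSubalgebra.isClosed_topologicalClosure _

/-- the generators -/
noncomputable def genp {X B : Type} [CStarAlgebra B] (q : X → B) (x : X) : gen q :=
  ⟨q x, (StarAlgebra.adjoin ℂ (Set.range q)).le_topologicalClosure
    (StarAlgebra.subset_adjoin ℂ _ ⟨x, rfl⟩)⟩

/-- a property which is closed and holds for the polynomials holds for all elements -/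
theorem gen_induction {X B : Type} [CStarAlgebra B] (q : X → B) (P : B → Prop)
    (hP : IsClosed {b | P b}) (h : ∀ f, P (evalPoly q f)) (b : B) (hb : b ∈ gen q) : P b := by
  have h1 : ((StarAlgebra.adjoin ℂ (Set.range q) : StarSubalgebra ℂ B) : Set B) ⊆ {b | P b} := by
    intro y hy
    obtain ⟨f, rfl⟩ := (adjoin_eq_range q y).mp hy
    exact h f
  exact closure_minimal h1 hP hb

theorem evalPoly_mem {X B : Type} [CStarAlgebra B] (q : X → B) (f : FreeAlgebra ℂ (X ⊕ X)) :
    evalPoly q f ∈ gen q :=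
  (StarAlgebra.adjoin ℂ (Set.range q)).le_topologicalClosure
    ((adjoin_eq_range q _).mpr ⟨f, rfl⟩)

theorem evalPoly_genp {X B : Type} [CStarAlgebra B] (q : X → B) (f : FreeAlgebra ℂ (X ⊕ X)) :
    ((evalPoly (genp q) f : gen q) : B) = evalPoly q f := by
  have h := evalPoly_map (gen q).subtype (genp q) f
  exact h.symm

/-- two homomorphisms which agree at the generators are equal -/
theorem gen_ext {X B C : Type} [CStarAlgebra B] [CStarAlgebra C] (q : X → B)
    (φ ψ : gen q →⋆ₐ[ℂ] C) (h : ∀ x, φ (genp q x) = ψ (genp q x)) : φ = ψ := by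
  have hφ : Continuous φ := map_continuous φ
  have hψ : Continuous ψ := map_continuous ψ
  apply StarAlgHom.ext_topologicalClosure hφ hψ
  ext ⟨y, hy⟩
  obtain ⟨f, rfl⟩ := (adjoin_eq_range q y).mp hy
  have e1 : StarSubalgebra.inclusion (StarSubalgebra.le_topologicalClosure _)
      (⟨evalPoly q f, hy⟩ : StarAlgebra.adjoin ℂ (Set.range q)) = evalPoly (genp q) f := by
    apply Subtype.ext
    rw [evalPoly_genp]
    rfl
  rw [StarAlgHom.comp_apply, StarAlgHom.comp_apply, e1, ← evalPoly_map, ← evalPoly_map]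
  congr 2
  funext x
  exact h x

/-- the extension of a homomorphism given at the generators -/
theorem gen_lift {X L B : Type} [CStarAlgebra L] [CStarAlgebra B] (p : X → L) (q : X → B)
    (h : ∀ f, ‖evalPoly q f‖ ≤ ‖evalPoly p f‖) :
    ∃ φ : gen p →⋆ₐ[ℂ] B, ∀ x, φ (genp p x) = q x := by
  let r : X → L × B := fun x => (p x, q x)
  have hfst : ∀ f, (evalPoly r f).1 = evalPoly p f := fun f =>
    (evalPoly_map (StarAlgHom.fst ℂ L B) r f).symm
  have hsnd : ∀ f, (evalPoly r f).2 = evalPoly q f := fun f =>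
    (evalPoly_map (StarAlgHom.snd ℂ L B) r f).symm
  have hnorm : ∀ d : L × B, d ∈ gen r → ‖d‖ = ‖d.1‖ := by
    intro d hd
    refine gen_induction r (fun d => ‖d‖ = ‖d.1‖) ?_ ?_ d hd
    · exact isClosed_eq continuous_norm (continuous_norm.comp continuous_fst)
    · intro f
      rw [Prod.norm_def, hfst, hsnd]
      exact max_eq_left (h f)
  have hmem : ∀ d : gen r, (d : L × B).1 ∈ gen p := by
    intro d
    refine gen_induction r (fun d => d.1 ∈ gen p) ?_ ?_ d d.2
    · exact (genClosed p).preimage continuous_fst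
    · intro f
      rw [hfst]
      exact evalPoly_mem p f
  let π : gen r →⋆ₐ[ℂ] gen p :=
    ((StarAlgHom.fst ℂ L B).comp (gen r).subtype).codRestrict (gen p) hmem
  have hπ : ∀ d : gen r, ((π d : gen p) : L) = (d : L × B).1 := fun _ => rfl
  have hiso : Isometry π := by
    apply AddMonoidHomClass.isometry_of_norm
    intro d
    have h1 := hnorm d d.2
    exact h1.symm
  have hsurj : Function.Surjective π := by
    have hcl : IsClosed (Set.range π) := hiso.isClosedEmbedding.isClosed_range
    have hcl' : IsClosed (Subtype.val '' Set.range π : Set L) :=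
      (genClosed p).isClosedEmbedding_subtypeVal.isClosedMap _ hcl
    rintro ⟨y, hy⟩
    have h2 : y ∈ (Subtype.val '' Set.range π : Set L) := by
      refine gen_induction p (fun y => y ∈ (Subtype.val '' Set.range π : Set L)) hcl' ?_ y hy
      intro f
      refine ⟨π (evalPoly (genp r) f), ⟨_, rfl⟩, ?_⟩
      rw [hπ, evalPoly_genp, hfst]
    obtain ⟨_, ⟨d, rfl⟩, hd⟩ := h2
    exact ⟨d, Subtype.ext hd⟩
  let e : gen r ≃⋆ₐ[ℂ] gen p := StarAlgEquiv.ofBijective π ⟨hiso.injective, hsurj⟩
  refine ⟨((StarAlgHom.snd ℂ L B).comp (gen r).subtype).comp (e.symm : gen p →⋆ₐ[ℂ] gen r), ?_⟩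
  intro x
  have h3 : e (genp r x) = genp p x := Subtype.ext rfl
  have h4 : e.symm (genp p x) = genp r x := by rw [← h3, e.symm_apply_apply]
  change ((e.symm (genp p x) : gen r) : L × B).2 = q x
  rw [h4]
  rfl

/-- **existence of the universal C*-algebra** -/
theorem exists_universal (X : Type) (R : ∀ (B : Type) [CStarAlgebra B], (X → B) → Prop)
    (h : Admissible X R) :
    ∃ (A : Type) (_ : CStarAlgebra A) (p : X → A), R A p ∧
      ∀ (B : Type) [CStarAlgebra B] (q : X → B), R B q →
        ∃! φ : A →⋆ₐ[ℂ] B, ∀ x, φ (p x) = q x := by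
  let J : Set (FreeAlgebra ℂ (X ⊕ X) → ℝ) := {N | ∃ (B : Type) (_ : CStarAlgebra B)
    (_ : Nontrivial B) (q : X → B), R B q ∧ ∀ f, N f = ‖evalPoly q f‖}
  have hJ : ∀ N : J, ∃ (B : Type) (_ : CStarAlgebra B)
    (_ : Nontrivial B) (q : X → B), R B q ∧ ∀ f, N.1 f = ‖evalPoly q f‖ := fun N => N.2
  choose B hB hnt q hR hN using hJ
  let p : X → lp B ∞ := fun x => ⟨fun N => q N x, memℓp_infty (by
    refine ⟨1, ?_⟩
    rintro _ ⟨N, rfl⟩
    exact h.norm_le _ _ (hR N) x)⟩
  have hp : R (lp B ∞) p := h.prod J B p hR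
  refine ⟨gen p, inferInstance, genp p, ?_, ?_⟩
  · exact h.sub (gen p) (lp B ∞) (gen p).subtype Subtype.val_injective (genp p) hp
  · intro C _ r hr
    rcases subsingleton_or_nontrivial C with hC | hC
    · refine ⟨{ toFun := fun _ => 0, map_one' := Subsingleton.elim _ _,
                map_mul' := fun _ _ => Subsingleton.elim _ _, map_zero' := rfl,
                map_add' := fun _ _ => Subsingleton.elim _ _,
                commutes' := fun _ => Subsingleton.elim _ _,
                map_star' := fun _ => Subsingleton.elim _ _ },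
        fun _ => Subsingleton.elim _ _, ?_⟩
      intro ψ _
      ext a
      exact Subsingleton.elim _ _
    · let N : J := ⟨fun f => ‖evalPoly r f‖, C, inferInstance, hC, r, hr, fun _ => rfl⟩
      obtain ⟨φ, hφ⟩ := gen_lift p r (by
        intro f
        have h1 : ‖evalPoly r f‖ = ‖evalPoly (q N) f‖ := hN N f
        have h2 : evalPoly (q N) f = ev N (evalPoly p f) := evalPoly_map (ev N) p f
        rw [h1, h2]
        exact lp.norm_apply_le_norm ENNReal.top_ne_zero (evalPoly p f) N)
      exact ⟨φ, hφ, fun ψ hψ => gen_ext p ψ φ (fun x => (hψ x).trans (hφ x).symm)⟩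

end Pool.Agent.Y208.IG
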