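import Pool.Agent.Y208.IG.Defs
import Pool.Agent.Y208.IG.Universal

/-!
# Isomorphism game algebras and full group C*-algebras exist
-/

set_option autoImplicit false

namespace Pool.Agent.Y208.IG

open scoped ENNReal

theorem norm_le_one_of_idem {B : Type} [CStarAlgebra B] (a : B) (h1 : star a = a)
    (h2 : a * a = a) : ‖a‖ ≤ 1 := by
  have h3 : ‖star a * a‖ = ‖a‖ * ‖a‖ := CStarRing.norm_star_mul_self
  rw [h1, h2] at h3
  by_contra hlt
  push Not at hlt
  nlinarith

theorem norm_one_le (B : Type) [CStarAlgebra B] : ‖(1 : B)‖ ≤ 1 :=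
  norm_le_one_of_idem 1 (star_one B) (mul_one 1)

theorem norm_unitary_le {B : Type} [CStarAlgebra B] (a : unitary B) : ‖(a : B)‖ ≤ 1 := by
  have h3 : ‖star (a : B) * a‖ = ‖(a : B)‖ * ‖(a : B)‖ := CStarRing.norm_star_mul_self
  rw [Unitary.coe_star_mul_self] at h3
  have h4 := norm_one_le B
  by_contra hlt
  push Not at hlt
  nlinarith

/-- the relations of the isomorphism game are admissible -/
theorem game_admissible {V W : Type} [Fintype V] [Fintype W] (G : SimpleGraph V)
    (H : SimpleGraph W) :
    Admissible (V × W) (fun B _ q => GameRelations G H (fun x y => q (x, y))) where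
  norm_le B _ q hq x := norm_le_one_of_idem (q x) (hq.adj x.1 x.2) (hq.idem x.1 x.2)
  sub B C _ _ φ hφ q hq := by
    refine ⟨?_, ?_, ?_, ?_, ?_⟩
    · intro x y
      apply hφ
      rw [map_star]
      exact hq.adj x y
    · intro x y
      apply hφ
      rw [map_mul]
      exact hq.idem x y
    · intro x
      apply hφ
      rw [map_sum, map_one]
      exact hq.row x
    · intro y
      apply hφ
      rw [map_sum, map_one]
      exact hq.col y
    · intro x x' y y' h
      apply hφ
      rw [map_mul, map_zero]
      exact hq.zero x x' y y' h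
  prod I B _ _ q hq := by
    refine ⟨?_, ?_, ?_, ?_, ?_⟩
    · intro x y
      apply lp_ext
      intro i
      rw [map_star]
      exact (hq i).adj x y
    · intro x y
      apply lp_ext
      intro i
      rw [map_mul]
      exact (hq i).idem x y
    · intro x
      apply lp_ext
      intro i
      rw [map_sum, map_one]
      exact (hq i).row x
    · intro y
      apply lp_ext
      intro i
      rw [map_sum, map_one]
      exact (hq i).col y
    · intro x x' y y' h
      apply lp_ext
      intro i
      rw [map_mul, map_zero]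
      exact (hq i).zero x x' y y' h

/-- **the isomorphism game algebra exists** -/
theorem exists_gameAlgebra {V W : Type} [Fintype V] [Fintype W] (G : SimpleGraph V)
    (H : SimpleGraph W) :
    ∃ (A : Type) (_ : CStarAlgebra A) (p : V → W → A), IsGameAlgebra G H A p := by
  obtain ⟨A, iA, p, hp, huniv⟩ := exists_universal (V × W) _ (game_admissible G H)
  refine ⟨A, iA, fun x y => p (x, y), hp, ?_⟩
  intro B _ q hq
  obtain ⟨φ, hφ, hφ'⟩ := huniv B (fun x => q x.1 x.2) hq
  refine ⟨φ, fun x y => hφ (x, y), ?_⟩
  intro ψ hψ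
  exact hφ' ψ (fun x => hψ x.1 x.2)

/-- the unitary representations of a group are admissible -/
theorem group_admissible (Γ : Type) [Group Γ] :
    Admissible Γ (fun B _ q => ∃ v : Γ →* unitary B, ∀ γ, q γ = (v γ : B)) where
  norm_le B _ q := by
    rintro ⟨v, hv⟩ γ
    rw [hv]
    exact norm_unitary_le (v γ)
  sub B C _ _ φ hφ q := by
    rintro ⟨v, hv'⟩
    have hv : ∀ γ, φ (q γ) = (v γ : C) := hv'
    refine ⟨{ toFun := fun γ => ⟨q γ, ?_⟩, map_one' := ?_, map_mul' := ?_ }, fun γ => rfl⟩
    · rw [Unitary.mem_iff]
      constructor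
      · apply hφ
        rw [map_mul, map_star, map_one, hv, Unitary.coe_star_mul_self]
      · apply hφ
        rw [map_mul, map_star, map_one, hv]
        exact (Unitary.mem_iff.mp (v γ).2).2
    · apply Subtype.ext
      apply hφ
      change φ (q 1) = φ 1
      rw [hv, map_one, map_one]
      rfl
    · intro x y
      apply Subtype.ext
      apply hφ
      change φ (q (x * y)) = φ (q x * q y)
      rw [map_mul, hv, hv, hv, map_mul]
      rfl
  prod I B _ _ q hq := by
    choose v hv' using hq
    have hv : ∀ i γ, ev i (q γ) = (v i γ : B i) := hv'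
    refine ⟨{ toFun := fun γ => ⟨q γ, ?_⟩, map_one' := ?_, map_mul' := ?_ }, fun γ => rfl⟩
    · rw [Unitary.mem_iff]
      constructor
      · apply lp_ext
        intro i
        rw [map_mul, map_star, map_one, hv, Unitary.coe_star_mul_self]
      · apply lp_ext
        intro i
        rw [map_mul, map_star, map_one, hv]
        exact (Unitary.mem_iff.mp (v i γ).2).2
    · apply Subtype.ext
      apply lp_ext
      intro i
      change ev i (q 1) = ev i 1
      rw [hv, map_one, map_one]
      rfl
    · intro x y
      apply Subtype.ext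
      apply lp_ext
      intro i
      change ev i (q (x * y)) = ev i (q x * q y)
      rw [map_mul, hv, hv, hv, map_mul]
      rfl

/-- **the full group C*-algebra exists** -/
theorem exists_groupAlgebra (Γ : Type) [Group Γ] :
    ∃ (C : Type) (_ : CStarAlgebra C) (u : Γ →* unitary C), IsFullGroupCStarAlgebra Γ C u := by
  obtain ⟨C, iC, p, ⟨u, hu⟩, huniv⟩ := exists_universal Γ _ (group_admissible Γ)
  refine ⟨C, iC, u, ?_⟩
  intro B _ v
  obtain ⟨φ, hφ, hφ'⟩ := huniv B (fun γ => (v γ : B)) ⟨v, fun _ => rfl⟩
  refine ⟨φ, fun γ => ?_, ?_⟩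
  · rw [← hu]
    exact hφ γ
  · intro ψ hψ
    exact hφ' ψ (fun γ => by rw [hu]; exact hψ γ)

/-- if the relations of the isomorphism game of `(G, H)` have a solution in a C*-algebra with a
character then `G` and `H` are isomorphic -/
theorem iso_of_character {V W : Type} [Fintype V] [Fintype W] (G : SimpleGraph V)
    (H : SimpleGraph W) (C : Type) [CStarAlgebra C] (χ : C →⋆ₐ[ℂ] ℂ) (q : V → W → C)
    (hq : GameRelations G H q) : Nonempty (G ≃g H) := by
  have hrow : ∀ x, ∃ y, χ (q x y) ≠ 0 := by
    intro x
    by_contra hne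
    push Not at hne
    have h1 := congrArg χ (hq.row x)
    rw [map_sum, map_one] at h1
    simp only [hne, Finset.sum_const_zero] at h1
    exact zero_ne_one h1
  have hcol : ∀ y, ∃ x, χ (q x y) ≠ 0 := by
    intro y
    by_contra hne
    push Not at hne
    have h1 := congrArg χ (hq.col y)
    rw [map_sum, map_one] at h1
    simp only [hne, Finset.sum_const_zero] at h1
    exact zero_ne_one h1
  have key : ∀ x x' y y', χ (q x y) ≠ 0 → χ (q x' y') ≠ 0 → SameRel G H x x' y y' := by
    intro x x' y y' h h'
    by_contra hne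
    have h2 := congrArg χ (hq.zero x x' y y' hne)
    rw [map_mul, map_zero] at h2
    exact mul_ne_zero h h' h2
  choose f hf using hrow
  choose g hg using hcol
  refine ⟨{ toFun := f, invFun := g, left_inv := fun x => ?_, right_inv := fun y => ?_,
            map_rel_iff' := ?_ }⟩
  · exact (key (g (f x)) x (f x) (f x) (hg (f x)) (hf x)).1.mpr rfl
  · exact (key (g y) (g y) (f (g y)) y (hf (g y)) (hg y)).1.mp rfl
  · intro x x'
    exact (key x x' (f x) (f x') (hf x) (hf x')).2.symm

end Pool.Agent.Y208.IG
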