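import Mathlib

/-!
# Isomorphism game algebras and full group C*-algebras
-/

set_option autoImplicit false

namespace Pool.Agent.Y208.IG

/-- The relation of two vertices `x, x'` of `G` is the same as the relation of two vertices `y, y'`
of `H`: equal, adjacent, or distinct and non-adjacent. -/
def SameRel {V W : Type} (G : SimpleGraph V) (H : SimpleGraph W) (x x' : V) (y y' : W) : Prop :=
  (x = x' ↔ y = y') ∧ (G.Adj x x' ↔ H.Adj y y')

/-- The relations of the isomorphism game algebra of `(G, H)` for elements `p x y` of a unital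
C*-algebra. -/
structure GameRelations {V W : Type} [Fintype V] [Fintype W] (G : SimpleGraph V)
    (H : SimpleGraph W) {B : Type} [CStarAlgebra B] (p : V → W → B) : Prop where
  /-- the `p x y` are self-adjoint -/
  adj : ∀ x y, star (p x y) = p x y
  /-- the `p x y` are idempotent -/
  idem : ∀ x y, p x y * p x y = p x y
  /-- the rows have the sum one -/
  row : ∀ x, ∑ y, p x y = 1
  /-- the columns have the sum one -/
  col : ∀ y, ∑ x, p x y = 1
  /-- products vanish if the relations differ -/
  zero : ∀ x x' y y', ¬ SameRel G H x x' y y' → p x y * p x' y' = 0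

/-- `A`, with the elements `p x y`, is the isomorphism game algebra of `(G, H)`: the universal
unital C*-algebra with these generators and relations. -/
structure IsGameAlgebra {V W : Type} [Fintype V] [Fintype W] (G : SimpleGraph V)
    (H : SimpleGraph W) (A : Type) [CStarAlgebra A] (p : V → W → A) : Prop where
  /-- the relations hold in `A` -/
  relations : GameRelations G H p
  /-- the universal property -/
  universal : ∀ (B : Type) [CStarAlgebra B] (q : V → W → B), GameRelations G H q →
    ∃! φ : A →⋆ₐ[ℂ] B, ∀ x y, φ (p x y) = q x y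

/-- `C`, with the homomorphism `u` to its unitary group, is the full group C*-algebra of `Γ`. -/
def IsFullGroupCStarAlgebra (Γ : Type) [Group Γ] (C : Type) [CStarAlgebra C]
    (u : Γ →* unitary C) : Prop :=
  ∀ (B : Type) [CStarAlgebra B] (v : Γ →* unitary B),
    ∃! φ : C →⋆ₐ[ℂ] B, ∀ γ, φ (u γ : C) = (v γ : B)

/-- The relators of the solution group of the linear system `M x = b` over `ZMod 2`: the generators
are `some i` for the variables and `none` for `J`. -/
def solutionRelators {m n : ℕ} (M : Matrix (Fin m) (Fin n) (ZMod 2)) (b : Fin m → ZMod 2) :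
    Set (FreeGroup (Option (Fin n))) :=
  let g : Fin n → FreeGroup (Option (Fin n)) := fun i => FreeGroup.of (some i)
  let J : FreeGroup (Option (Fin n)) := FreeGroup.of none
  {r | r = J ^ 2 ∨ (∃ i, r = g i ^ 2) ∨ (∃ i, r = J * g i * J⁻¹ * (g i)⁻¹) ∨
    (∃ i j k, M k i = 1 ∧ M k j = 1 ∧ r = g i * g j * (g i)⁻¹ * (g j)⁻¹) ∨
    ∃ k, r = (List.ofFn fun i => if M k i = 1 then g i else 1).prod *
      (if b k = 1 then J else 1)⁻¹}

/-- The solution group `Γ (M, b)`. -/
abbrev SolutionGroup {m n : ℕ} (M : Matrix (Fin m) (Fin n) (ZMod 2)) (b : Fin m → ZMod 2) : Type :=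
  PresentedGroup (solutionRelators M b)

end Pool.Agent.Y208.IG
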