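import Pool.Agent.Y208.IG.Quantum

/-!
# No embedding of the isomorphism game algebra of the magic square graphs
-/

set_option autoImplicit false

namespace Pool.Agent.Y208.IG

/-- a C*-algebra with a character contains no solution of the relations -/
theorem no_relations (C : Type) [CStarAlgebra C] (χ : C →⋆ₐ[ℂ] ℂ)
    (q : Vert bOne → Vert bZero → C)
    (hq : GameRelations (squareGraph bOne) (squareGraph bZero) q) : False := by
  -- the zero local solutions
  let z : Fin 6 → Vert bZero := fun k => ⟨(k, 0), by simp [bZero]⟩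
  have hex : ∀ k, ∃ x, χ (q x (z k)) ≠ 0 := by
    intro k
    by_contra hne
    push Not at hne
    have h1 := congrArg χ (hq.col (z k))
    rw [map_sum, map_one] at h1
    simp only [hne, Finset.sum_const_zero] at h1
    exact zero_ne_one h1
  choose x hx using hex
  refine no_six x ?_
  intro k l hkl
  have h1 : SameRel (squareGraph bOne) (squareGraph bZero) (x k) (x l) (z k) (z l) := by
    by_contra hne
    have h2 := congrArg χ (hq.zero _ _ _ _ hne)
    rw [map_mul, map_zero] at h2
    exact mul_ne_zero (hx k) (hx l) h2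
  refine ⟨fun h2 => ?_, fun h2 => ?_⟩
  · have h3 := h1.1.mp h2
    exact hkl (congrArg (fun y : Vert bZero => y.1.1) h3)
  · obtain ⟨j, j', -, hne⟩ := h1.2.mp h2
    exact hne rfl

/-- the C*-algebra of the complex 4 x 4 matrices -/
abbrev MatFour : Type := EuclideanSpace ℂ (Fin 4) →L[ℂ] EuclideanSpace ℂ (Fin 4)

/-- the complex matrices -/
noncomputable def toC (M : Matrix (Fin 4) (Fin 4) ℤ) : MatFour :=
  Matrix.toEuclideanCLM (𝕜 := ℂ) (M.map (fun z : ℤ => (z : ℂ)))

theorem toC_mul (M N : Matrix (Fin 4) (Fin 4) ℤ) : toC (M * N) = toC M * toC N := by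
  unfold toC
  rw [← map_mul]
  congr 1
  exact Matrix.map_mul (L := M) (M := N) (f := Int.castRingHom ℂ)

theorem toC_zero : toC 0 = 0 := by
  unfold toC
  rw [← map_zero (Matrix.toEuclideanCLM (𝕜 := ℂ) (n := Fin 4))]
  congr 1
  ext i j
  simp

theorem toC_add (M N : Matrix (Fin 4) (Fin 4) ℤ) : toC (M + N) = toC M + toC N := by
  unfold toC
  rw [← map_add]
  congr 1
  ext i j
  simp

theorem toC_sum {ι : Type} (s : Finset ι) (M : ι → Matrix (Fin 4) (Fin 4) ℤ) :
    toC (∑ i ∈ s, M i) = ∑ i ∈ s, toC (M i) := by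
  classical
  induction s using Finset.induction_on with
  | empty => simpa using toC_zero
  | insert a s ha ih => rw [Finset.sum_insert ha, Finset.sum_insert ha, toC_add, ih]

theorem toC_four (M : Matrix (Fin 4) (Fin 4) ℤ) : toC ((4 : ℤ) • M) = (4 : ℂ) • toC M := by
  unfold toC
  rw [← map_smul]
  congr 1
  ext i j
  rw [Matrix.map_apply, Matrix.smul_apply, Matrix.smul_apply, Matrix.map_apply, smul_eq_mul,
    smul_eq_mul]
  push_cast
  rfl

theorem toC_one : toC 1 = 1 := by
  unfold toC
  rw [← map_one (Matrix.toEuclideanCLM (𝕜 := ℂ) (n := Fin 4))]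
  congr 1
  ext i j
  simp only [Matrix.map_apply, Matrix.one_apply]
  split_ifs <;> simp

theorem toC_star (M : Matrix (Fin 4) (Fin 4) ℤ) (h : M.transpose = M) : star (toC M) = toC M := by
  unfold toC
  rw [← map_star]
  congr 1
  ext i j
  have h1 : M j i = M i j := congrFun (congrFun h i) j
  simp [Matrix.star_apply, h1]

/-- the quantum isomorphism -/
noncomputable def quantum (x : Vert bOne) (y : Vert bZero) : MatFour := (4 : ℂ)⁻¹ • toC (Q x y)

theorem quantum_relations :
    GameRelations (squareGraph bOne) (squareGraph bZero) quantum where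
  adj x y := by
    unfold quantum
    rw [star_smul, toC_star _ (Q_transpose x y)]
    congr 1
    simp
  idem x y := by
    unfold quantum
    rw [smul_mul_smul_comm, ← toC_mul, Q_idem, toC_four, smul_smul]
    congr 1
    norm_num
  row x := by
    unfold quantum
    rw [← Finset.smul_sum, ← toC_sum, Q_row, toC_four, toC_one, smul_smul]
    norm_num
  col y := by
    unfold quantum
    rw [← Finset.smul_sum, ← toC_sum, Q_col, toC_four, toC_one, smul_smul]
    norm_num
  zero x x' y y' h := by
    unfold quantum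
    rw [smul_mul_smul_comm, ← toC_mul, Q_zero x x' y y' h, toC_zero]
    exact smul_zero (A := MatFour) ((4 : ℂ)⁻¹ * (4 : ℂ)⁻¹)

theorem main :
    (∃ (B : Type) (_ : CStarAlgebra B) (_ : Nontrivial B) (q : Vert bOne → Vert bZero → B),
      GameRelations (squareGraph bOne) (squareGraph bZero) q) ∧
    ∀ (A : Type) [CStarAlgebra A] (p : Vert bOne → Vert bZero → A),
      IsGameAlgebra (squareGraph bOne) (squareGraph bZero) A p →
      Nontrivial A ∧
      ∀ (Γ : Type) [Group Γ] (C : Type) [CStarAlgebra C] (u : Γ →* unitary C),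
        IsFullGroupCStarAlgebra Γ C u → IsEmpty (A →⋆ₐ[ℂ] C) := by
  refine ⟨⟨MatFour, inferInstance, inferInstance, quantum, quantum_relations⟩, ?_⟩
  intro A _ p hA
  refine ⟨?_, ?_⟩
  · obtain ⟨φ, -, -⟩ := hA.universal MatFour quantum quantum_relations
    exact φ.toRingHom.domain_nontrivial
  · intro Γ _ C _ u hC
    refine ⟨fun φ => ?_⟩
    obtain ⟨χ, -, -⟩ := hC ℂ 1
    refine no_relations C χ (fun x y => φ (p x y)) ⟨?_, ?_, ?_, ?_, ?_⟩
    · intro x y
      rw [← map_star, hA.relations.adj]
    · intro x y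
      rw [← map_mul, hA.relations.idem]
    · intro x
      rw [← map_sum, hA.relations.row, map_one]
    · intro y
      rw [← map_sum, hA.relations.col, map_one]
    · intro x x' y y' h
      rw [← map_mul, hA.relations.zero x x' y y' h, map_zero]

end Pool.Agent.Y208.IG
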