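import Pool.Agent.Y208.IG.Defs

/-!
# The graphs of the magic square
-/

set_option autoImplicit false

namespace Pool.Agent.Y208.IG

/-- the variable in the place `j` of the equation `k`: the equations `0, 1, 2` are the rows and the
equations `3, 4, 5` are the columns of the 3 x 3 square of the variables -/
def var (k : Fin 6) (j : Fin 3) : Fin 3 × Fin 3 :=
  if h : (k : ℕ) < 3 then (⟨k, h⟩, j) else (j, ⟨(k : ℕ) - 3, by omega⟩)

theorem var_inj : ∀ (k : Fin 6) (j j' : Fin 3), var k j = var k j' → j = j' := by decide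

/-- The vertices: an equation `k` and a local solution, i.e. values of the three variables of the
equation with the sum `b k`. -/
abbrev Vert (b : Fin 6 → ZMod 2) : Type :=
  {x : Fin 6 × (Fin 3 → ZMod 2) // x.2 0 + x.2 1 + x.2 2 = b x.1}

/-- Two local solutions are adjacent if they are inconsistent: they give different values to a
common variable. -/
def squareGraph (b : Fin 6 → ZMod 2) : SimpleGraph (Vert b) where
  Adj x y := ∃ j j', var x.1.1 j = var y.1.1 j' ∧ x.1.2 j ≠ y.1.2 j'
  symm := ⟨by
    rintro x y ⟨j, j', h, h'⟩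
    exact ⟨j', j, h.symm, h'.symm⟩⟩
  loopless := ⟨by
    rintro x ⟨j, j', h, h'⟩
    exact h' (by rw [var_inj _ j j' h])⟩

/-- the right hand sides of the magic square -/
def bOne : Fin 6 → ZMod 2 := ![0, 0, 0, 0, 0, 1]

/-- the homogeneous system -/
def bZero : Fin 6 → ZMod 2 := fun _ => 0

/-- distinct local solutions of the same equation are adjacent -/
theorem adj_of_eq (b : Fin 6 → ZMod 2) (x y : Vert b) (h : x.1.1 = y.1.1) (hne : x ≠ y) :
    (squareGraph b).Adj x y := by
  have h1 : x.1.2 ≠ y.1.2 := fun h2 => hne (Subtype.ext (Prod.ext h h2))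
  obtain ⟨j, hj⟩ := Function.ne_iff.mp h1
  exact ⟨j, j, by rw [h], hj⟩

/-- there are no six pairwise consistent local solutions of the magic square -/
theorem no_six (x : Fin 6 → Vert bOne)
    (h : ∀ k l, k ≠ l → x k ≠ x l ∧ ¬ (squareGraph bOne).Adj (x k) (x l)) : False := by
  have hinj : Function.Injective (fun k => (x k).1.1) := by
    intro k l hkl
    by_contra hne
    obtain ⟨h1, h2⟩ := h k l hne
    exact h2 (adj_of_eq bOne (x k) (x l) hkl h1)
  have hsurj := Finite.surjective_of_injective hinj
  choose τ hτ using hsurj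
  -- the local solution of the equation `k`
  have hcons : ∀ k l j j', k ≠ l → var k j = var l j' →
      (x (τ k)).1.2 j = (x (τ l)).1.2 j' := by
    intro k l j j' hkl hv
    by_contra hne
    have hτne : τ k ≠ τ l := by
      intro hh
      apply hkl
      have h1 := hτ k
      have h2 := hτ l
      rw [hh] at h1
      exact h1.symm.trans h2
    refine (h _ _ hτne).2 ⟨j, j', ?_, hne⟩
    have h1 := hτ k
    have h2 := hτ l
    simp only at h1 h2
    rw [h1, h2]
    exact hv
  have hsum : ∀ k, (x (τ k)).1.2 0 + (x (τ k)).1.2 1 + (x (τ k)).1.2 2 = bOne k := by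
    intro k
    have h1 := (x (τ k)).2
    have h2 := hτ k
    simp only at h2
    rw [h2] at h1
    exact h1
  have e0 := hsum 0
  have e1 := hsum 1
  have e2 := hsum 2
  have e3 := hsum 3
  have e4 := hsum 4
  have e5 := hsum 5
  rw [hcons 3 0 0 0 (by decide) (by decide), hcons 3 1 1 0 (by decide) (by decide),
    hcons 3 2 2 0 (by decide) (by decide)] at e3
  rw [hcons 4 0 0 1 (by decide) (by decide), hcons 4 1 1 1 (by decide) (by decide),
    hcons 4 2 2 1 (by decide) (by decide)] at e4
  rw [hcons 5 0 0 2 (by decide) (by decide), hcons 5 1 1 2 (by decide) (by decide),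
    hcons 5 2 2 2 (by decide) (by decide)] at e5
  revert e0 e1 e2 e3 e4 e5
  generalize (x (τ 0)).1.2 0 = a00
  generalize (x (τ 0)).1.2 1 = a01
  generalize (x (τ 0)).1.2 2 = a02
  generalize (x (τ 1)).1.2 0 = a10
  generalize (x (τ 1)).1.2 1 = a11
  generalize (x (τ 1)).1.2 2 = a12
  generalize (x (τ 2)).1.2 0 = a20
  generalize (x (τ 2)).1.2 1 = a21
  generalize (x (τ 2)).1.2 2 = a22
  intro e0 e1 e2 e3 e4 e5
  have h1 : bOne 0 + bOne 1 + bOne 2 = bOne 3 + bOne 4 + bOne 5 := by
    rw [← e0, ← e1, ← e2, ← e3, ← e4, ← e5]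
    ring
  exact absurd h1 (by decide)

end Pool.Agent.Y208.IG
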